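import Pool.Agent.H.MP_77ae25_co.B

set_option autoImplicit false

namespace Pool.Agent.Results.MP_77ae25_co.Yes

open Pool.Agent.H.MP_c16527_co Pool.Agent.H.MP_77ae25_co

def HasTheta {V : Type} (G : SimpleGraph V) : Prop :=
  ∃ (P : Fin 3 → ℕ → V) (l : Fin 3 → ℕ),
    (∀ i, 2 ≤ l i) ∧
    (∀ i j, P i 0 = P j 0 ∧ P i (l i) = P j (l j)) ∧
    (∀ i s t, s ≤ l i → t ≤ l i → P i s = P i t → s = t) ∧
    (∀ i s t, s ≤ l i → t ≤ l i → (G.Adj (P i s) (P i t) ↔ (s + 1 = t ∨ t + 1 = s))) ∧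
    (∀ i j s t, i ≠ j → 0 < s → s < l i → 0 < t → t < l j →
      P i s ≠ P j t ∧ ¬ G.Adj (P i s) (P j t))

def HasPrism {V : Type} (G : SimpleGraph V) : Prop :=
  ∃ (P : Fin 3 → ℕ → V) (l : Fin 3 → ℕ),
    (∀ i, 1 ≤ l i) ∧
    (∀ i j s t, s ≤ l i → t ≤ l j → P i s = P j t → (i = j ∧ s = t)) ∧
    (∀ i j s t, s ≤ l i → t ≤ l j →
      (G.Adj (P i s) (P j t) ↔
        ((i = j ∧ (s + 1 = t ∨ t + 1 = s)) ∨
         (i ≠ j ∧ ((s = 0 ∧ t = 0) ∨ (s = l i ∧ t = l j))))))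

theorem result : ∃ G : SimpleGraph (Fin 15), ¬ HasTheta G ∧ ¬ HasPrism G ∧
    ∃ B : Fin 3 ⊕ Fin 4 → Set (Fin 15), (∀ x, (G.induce (B x)).Connected) ∧
      (∀ x y, x ≠ y → Disjoint (B x) (B y)) ∧
      (∀ x y, x ≠ y → ((∃ u ∈ B x, ∃ v ∈ B y, G.Adj u v) ↔
        (completeBipartiteGraph (Fin 3) (Fin 4)).Adj x y)) := by
  refine ⟨G15, rep15.theta theta15, rep15.prism prism15, minor_of G15 _
    ![.inr 0, .inl 2, .inr 3, .inr 1, .inr 0, .inr 2, .inl 0, .inl 0, .inl 1, .inl 0, .inl 2,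
      .inl 2, .inr 3, .inl 0, .inr 1]
    (Sum.elim ![6, 8, 1] ![0, 3, 5, 2]) ![0, 1, 2, 3, 0, 5, 6, 13, 8, 7, 1, 1, 2, 6, 3]
    ![0, 0, 0, 0, 1, 0, 0, 2, 0, 3, 1, 1, 1, 1, 1] (by decide +kernel) (by decide +kernel) ?_⟩
  simp only [completeBipartiteGraph_adj]
  decide +kernel

end Pool.Agent.Results.MP_77ae25_co.Yes
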